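import Mathlib

set_option autoImplicit false

namespace Pool.Agent.Results.MP_4a8fbb_co.Enlarge

open Real

abbrev E := EuclideanSpace ℝ (Fin 3)

/-- One legal move: piece `i` jumps over a different piece `j`; all other pieces stay. -/
def Jump {ι : Type} (p q : ι → E) : Prop :=
  ∃ i j, i ≠ j ∧ q i = (2 : ℝ) • p j - p i ∧ ∀ k, k ≠ i → q k = p k

/-- `σ` is a similarity of `ℝ³` with ratio `r`. -/
def IsSim (σ : E → E) (r : ℝ) : Prop :=
  Function.Surjective σ ∧ ∀ x y, dist (σ x) (σ y) = r * dist x y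

/-- One piece starts on each point of `T`; after finitely many moves the pieces occupy exactly
the points of a similar copy of `T` with ratio `> 1`. -/
def CanEnlarge (T : Set E) : Prop :=
  ∃ q : T → E, Relation.ReflTransGen Jump (fun v : T => (v : E)) q ∧ Function.Injective q ∧
    ∃ σ r, 1 < r ∧ IsSim σ r ∧ Set.range q = σ '' T

/-- The vertices `(0, ±1, ±φ)` and cyclic shifts. -/
def ico : Set E :=
  {x | ∃ s ∈ ({1, -1} : Set ℝ), ∃ t ∈ ({1, -1} : Set ℝ),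
    x = !₂[0, s, t * goldenRatio] ∨ x = !₂[s, t * goldenRatio, 0] ∨
      x = !₂[t * goldenRatio, 0, s]}

/-- The vertices `(±1, ±1, ±1)`, `(0, ±1/φ, ±φ)` and cyclic shifts. -/
def dod : Set E :=
  {x | ∃ s ∈ ({1, -1} : Set ℝ), ∃ t ∈ ({1, -1} : Set ℝ),
    x = !₂[s, t, 1] ∨ x = !₂[s, t, -1] ∨
    x = !₂[0, s / goldenRatio, t * goldenRatio] ∨ x = !₂[s / goldenRatio, t * goldenRatio, 0] ∨
      x = !₂[t * goldenRatio, 0, s / goldenRatio]}

abbrev Z := ℤ × ℤ × ℤ × ℤ × ℤ × ℤ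

noncomputable def emb (v : Z) : E :=
  !₂[v.1 + v.2.1 * goldenRatio, v.2.2.1 + v.2.2.2.1 * goldenRatio,
    v.2.2.2.2.1 + v.2.2.2.2.2 * goldenRatio]

def refl (a b : Z) : Z :=
  (2 * a.1 - b.1, 2 * a.2.1 - b.2.1, 2 * a.2.2.1 - b.2.2.1, 2 * a.2.2.2.1 - b.2.2.2.1,
    2 * a.2.2.2.2.1 - b.2.2.2.2.1, 2 * a.2.2.2.2.2 - b.2.2.2.2.2)

def tgt (b v : Z) : Z :=
  (v.1 + 2 * v.2.1 + b.1, 2 * v.1 + 3 * v.2.1 + b.2.1,
    v.2.2.1 + 2 * v.2.2.2.1 + b.2.2.1, 2 * v.2.2.1 + 3 * v.2.2.2.1 + b.2.2.2.1,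
    v.2.2.2.2.1 + 2 * v.2.2.2.2.2 + b.2.2.2.2.1, 2 * v.2.2.2.2.1 + 3 * v.2.2.2.2.2 + b.2.2.2.2.2)

lemma emb_refl (a b : Z) : emb (refl a b) = (2 : ℝ) • emb a - emb b := by
  ext i
  fin_cases i <;> simp [emb, refl] <;> ring

lemma emb_tgt (b v : Z) : emb (tgt b v) = (2 * goldenRatio + 1) • emb v + emb b := by
  have h := goldenRatio_sq
  ext i
  fin_cases i <;> simp [emb, tgt]
  · linear_combination (-2 * (v.2.1 : ℝ)) * h
  · linear_combination (-2 * (v.2.2.2.1 : ℝ)) * h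
  · linear_combination (-2 * (v.2.2.2.2.2 : ℝ)) * h

lemma irr (a b c d : ℤ) (h : (a : ℝ) + b * goldenRatio = c + d * goldenRatio) : a = c ∧ b = d := by
  by_cases hb : b = d
  · subst hb
    exact ⟨by exact_mod_cast add_right_cancel h, rfl⟩
  · exfalso
    have h1 : Irrational (((b - d : ℤ) : ℝ) * goldenRatio) :=
      goldenRatio_irrational.intCast_mul (sub_ne_zero.2 hb)
    apply h1.ne_int (c - a)
    push_cast
    linarith

lemma emb_inj : Function.Injective emb := by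
  rintro ⟨a1, a2, a3, a4, a5, a6⟩ ⟨b1, b2, b3, b4, b5, b6⟩ h
  have h0 := irr _ _ _ _ (congrArg (fun x : E => x 0) h)
  have h1 := irr _ _ _ _ (congrArg (fun x : E => x 1) h)
  have h2 := irr _ _ _ _ (congrArg (fun x : E => x 2) h)
  simp only at h0 h1 h2
  simp [h0.1, h0.2, h1.1, h1.2, h2.1, h2.2]

def step {n : ℕ} (c : Fin n → Z) (m : Fin n × Fin n) : Fin n → Z :=
  fun k => if k = m.1 then refl (c m.2) (c m.1) else c k

lemma run {n : ℕ} {ι : Type} (e : ι ≃ Fin n) (f : Z → E)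
    (hf : ∀ a b, f (refl a b) = (2 : ℝ) • f a - f b) (ms : List (Fin n × Fin n))
    (hms : ∀ m ∈ ms, m.1 ≠ m.2) (c : Fin n → Z) :
    Relation.ReflTransGen Jump (fun v => f (c (e v))) (fun v => f (ms.foldl step c (e v))) := by
  induction ms generalizing c with
  | nil => exact .refl
  | cons m ms ih =>
    refine .head ⟨e.symm m.1, e.symm m.2, fun h => hms m (by simp) (e.symm.injective h), ?_, ?_⟩
      (ih (fun m hm => hms m (by simp [hm])) (step c m))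
    · simp [step, hf]
    · intro k hk
      have : e k ≠ m.1 := fun h => hk (by rw [← h]; simp)
      simp [step, this]

lemma sim_affine {τ : E → E} {r : ℝ} (hr : 0 < r) (h : IsSim τ r) :
    ∃ A : E ≃ᵃⁱ[ℝ] E, ∀ x, τ x = r • A x := by
  have hi : Isometry (fun x => r⁻¹ • τ x) := by
    refine Isometry.of_dist_eq fun x y => ?_
    rw [dist_smul₀, h.2, norm_inv, Real.norm_of_nonneg hr.le]
    field_simp
  have hs : Function.Surjective (fun x => r⁻¹ • τ x) := by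
    intro y
    obtain ⟨x, hx⟩ := h.1 (r • y)
    exact ⟨x, by simp [hx, smul_smul, hr.ne']⟩
  let I : E ≃ᵢ E := ⟨Equiv.ofBijective _ ⟨hi.injective, hs⟩, hi⟩
  refine ⟨I.toRealAffineIsometryEquiv, fun x => ?_⟩
  have : I.toRealAffineIsometryEquiv x = r⁻¹ • τ x := rfl
  rw [this, smul_smul]
  simp [hr.ne']

lemma main {n : ℕ} (c : Fin n → Z) (hc : Function.Injective c) (b : Z)
    (ms : List (Fin n × Fin n)) (hms : ∀ m ∈ ms, m.1 ≠ m.2)
    (hrun : ∀ k, ms.foldl step c k = tgt b (c k)) {τ : E → E} {r : ℝ} (hr : 0 < r)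
    (h : IsSim τ r) : CanEnlarge (τ '' Set.range (fun k => emb (c k))) := by
  obtain ⟨A, hA⟩ := sim_affine hr h
  have hL : ∀ x, A x = A.linearIsometryEquiv x + A 0 := fun x => by
    have := A.map_vadd 0 x
    simpa using this
  have hτ : Function.Injective τ := by
    intro x y hxy
    have := h.2 x y
    rw [hxy, dist_self] at this
    exact dist_eq_zero.1 ((mul_eq_zero.1 this.symm).resolve_left hr.ne')
  set T := τ '' Set.range (fun k => emb (c k)) with hT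
  let g : Fin n → T := fun k => ⟨τ (emb (c k)), _, ⟨k, rfl⟩, rfl⟩
  have hg : Function.Bijective g := by
    refine ⟨fun k l hkl => hc (emb_inj (hτ (congrArg Subtype.val hkl))), ?_⟩
    rintro ⟨_, _, ⟨k, rfl⟩, rfl⟩
    exact ⟨k, rfl⟩
  let e : T ≃ Fin n := (Equiv.ofBijective g hg).symm
  have he : ∀ v : T, τ (emb (c (e v))) = v := fun v =>
    congrArg Subtype.val ((Equiv.ofBijective g hg).apply_symm_apply v)
  have h1 := run e (fun a => τ (emb a)) (fun a b => by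
    simp only [emb_refl, hA]
    rw [hL, hL (emb a), hL (emb b), map_sub, map_smul]
    module) ms hms c
  have hφ : (1 : ℝ) < 2 * goldenRatio + 1 := by linarith [goldenRatio_pos]
  let σ : E → E := fun x =>
    (2 * goldenRatio + 1) • x + (τ (emb b) - (2 * goldenRatio + 1) • τ 0)
  have hσ : IsSim σ (2 * goldenRatio + 1) := by
    constructor
    · intro y
      refine ⟨(2 * goldenRatio + 1)⁻¹ • (y - (τ (emb b) - (2 * goldenRatio + 1) • τ 0)), ?_⟩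
      simp only [σ, smul_smul]
      rw [mul_inv_cancel₀ (by linarith)]
      simp
    · intro x y
      simp only [σ, dist_add_right, dist_smul₀]
      rw [Real.norm_of_nonneg (by linarith)]
  have hq : (fun v => τ (emb (ms.foldl step c (e v)))) = fun v : T => σ v := by
    funext v
    rw [hrun, emb_tgt, ← he v]
    simp only [σ, hA]
    rw [hL, hL (emb b), hL (emb (c (e v))), map_add, map_smul]
    module
  simp only [he, hq] at h1
  refine ⟨fun v : T => σ v, h1, ?_, σ, _, hφ, hσ, ?_⟩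
  · intro v w hvw
    have := hσ.2 v w
    rw [show σ v = σ w from hvw, dist_self] at this
    exact Subtype.ext (dist_eq_zero.1 ((mul_eq_zero.1 this.symm).resolve_left (by linarith)))
  · ext x
    simp

def icoZ : Fin 12 → Z :=
  ![(0, 0, 1, 0, 0, 1), (1, 0, 0, 1, 0, 0), (0, 1, 0, 0, 1, 0), (0, 0, 1, 0, 0, -1),
    (1, 0, 0, -1, 0, 0), (0, -1, 0, 0, 1, 0), (0, 0, -1, 0, 0, 1), (-1, 0, 0, 1, 0, 0),
    (0, 1, 0, 0, -1, 0), (0, 0, -1, 0, 0, -1), (-1, 0, 0, -1, 0, 0), (0, -1, 0, 0, -1, 0)]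

def icoM : List (Fin 12 × Fin 12) :=
  [(1, 5), (1, 3), (2, 5), (2, 4), (6, 7), (6, 10), (5, 10), (5, 8), (5, 11), (7, 3), (7, 4),
    (7, 11), (3, 6), (3, 5), (3, 0), (3, 2), (8, 0), (8, 7), (8, 3), (4, 0), (4, 1), (4, 8),
    (10, 0), (10, 2), (10, 4), (11, 0), (11, 1), (11, 3), (9, 3), (9, 5), (9, 4), (9, 2), (9, 0),
    (9, 1), (9, 0)]

def dodZ : Fin 20 → Z :=
  ![(1, 0, 1, 0, 1, 0), (1, 0, 1, 0, -1, 0), (1, 0, -1, 0, 1, 0), (1, 0, -1, 0, -1, 0),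
    (-1, 0, 1, 0, 1, 0), (-1, 0, 1, 0, -1, 0), (-1, 0, -1, 0, 1, 0), (-1, 0, -1, 0, -1, 0),
    (0, 0, -1, 1, 0, 1), (-1, 1, 0, 1, 0, 0), (0, 1, 0, 0, -1, 1), (0, 0, -1, 1, 0, -1),
    (-1, 1, 0, -1, 0, 0), (0, -1, 0, 0, -1, 1), (0, 0, 1, -1, 0, 1), (1, -1, 0, 1, 0, 0),
    (0, 1, 0, 0, 1, -1), (0, 0, 1, -1, 0, -1), (1, -1, 0, -1, 0, 0), (0, -1, 0, 0, 1, -1)]

def dodM : List (Fin 20 × Fin 20) :=
  [(1, 8), (1, 11), (2, 9), (2, 12), (4, 10), (4, 13), (8, 10), (8, 14), (9, 12), (9, 17),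
    (10, 5), (10, 17), (3, 1), (3, 9), (3, 18), (5, 4), (5, 8), (5, 17), (6, 2), (6, 10), (6, 19),
    (14, 0), (14, 10), (14, 2), (19, 14), (19, 6), (12, 14), (12, 8), (12, 17), (17, 2), (17, 12),
    (15, 0), (15, 3), (15, 17), (13, 15), (13, 9), (13, 18), (18, 4), (18, 13), (16, 0), (16, 6),
    (16, 18), (7, 18), (7, 10), (7, 0), (7, 8), (7, 0), (11, 17), (11, 9), (11, 0), (11, 2),
    (11, 0)]

lemma ico_eq : ico = Set.range (fun k => emb (icoZ k)) := by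
  ext x
  constructor
  · rintro ⟨s, rfl | rfl, t, rfl | rfl, rfl | rfl | rfl⟩
    exacts [⟨0, by simp [emb, icoZ]⟩, ⟨1, by simp [emb, icoZ]⟩, ⟨2, by simp [emb, icoZ]⟩,
      ⟨3, by simp [emb, icoZ]⟩, ⟨4, by simp [emb, icoZ]⟩, ⟨5, by simp [emb, icoZ]⟩,
      ⟨6, by simp [emb, icoZ]⟩, ⟨7, by simp [emb, icoZ]⟩, ⟨8, by simp [emb, icoZ]⟩,
      ⟨9, by simp [emb, icoZ]⟩, ⟨10, by simp [emb, icoZ]⟩, ⟨11, by simp [emb, icoZ]⟩]
  · rintro ⟨k, rfl⟩
    fin_cases k <;> simp [emb, icoZ, ico]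

lemma dod_eq : dod = Set.range (fun k => emb (dodZ k)) := by
  have h : ∀ s : ℝ, s / goldenRatio = s * (-1 + goldenRatio) := fun s => by
    rw [div_eq_iff goldenRatio_ne_zero]
    linear_combination (-s) * goldenRatio_sq
  unfold dod emb
  simp only [h]
  generalize goldenRatio = g
  have h' : 1 + -g = -g + 1 := add_comm _ _
  ext x
  constructor
  · rintro ⟨s, rfl | rfl, t, rfl | rfl, rfl | rfl | rfl | rfl | rfl⟩
    exacts [⟨0, by simp [dodZ]⟩, ⟨1, by simp [dodZ]⟩, ⟨8, by simp [dodZ]⟩,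
      ⟨9, by simp [dodZ]⟩, ⟨10, by simp [dodZ]⟩,
      ⟨2, by simp [dodZ]⟩, ⟨3, by simp [dodZ]⟩, ⟨11, by simp [dodZ]⟩,
      ⟨12, by simp [dodZ]⟩, ⟨13, by simp [dodZ]⟩,
      ⟨4, by simp [dodZ]⟩, ⟨5, by simp [dodZ]⟩, ⟨14, by simp [dodZ, h']⟩,
      ⟨15, by simp [dodZ, h']⟩, ⟨16, by simp [dodZ, h']⟩,
      ⟨6, by simp [dodZ]⟩, ⟨7, by simp [dodZ]⟩, ⟨17, by simp [dodZ, h']⟩,
      ⟨18, by simp [dodZ, h']⟩, ⟨19, by simp [dodZ, h']⟩]
  · rintro ⟨k, rfl⟩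
    fin_cases k <;> simp [dodZ, h']

theorem result (τ : E → E) (r : ℝ) (hr : 0 < r) (h : IsSim τ r) :
    CanEnlarge (τ '' dod) ∧ CanEnlarge (τ '' ico) := by
  rw [ico_eq, dod_eq]
  exact ⟨main dodZ (by decide +kernel) (0, -2, 0, -2, 0, -2) dodM (by decide +kernel)
    (by decide +kernel) hr h, main icoZ (by decide +kernel) (0, 0, 0, -2, -2, -2) icoM
    (by decide +kernel) (by decide +kernel) hr h⟩

end Pool.Agent.Results.MP_4a8fbb_co.Enlarge
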